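import Pool.Agent.Helper66.OC.StA
import Pool.Agent.Helper95.OC.Three

set_option autoImplicit false

namespace Pool.Agent.Helper66.OC

open Finset

theorem law_triv : Law (fun φ : ℝ → ℝ => φ 1) where
  add _ _ := rfl
  smul _ _ := rfl
  mono φ ψ h := by simpa using h 1 le_rfl
  one := rfl

theorem q5 (e : ℕ) : qq 5 1 (e + 1) = 4 / 3 * (1 / 5 : ℝ) ^ (e + 1) := by
  unfold qq
  rw [if_neg (Nat.succ_ne_zero e)]
  norm_num

theorem at5 (γ j : ℕ) (hj : 1 ≤ j) (hγ : j ≤ γ) :
    Ls (fun φ : ℝ → ℝ => φ 1) 5 γ 1 (at' j) = qq 5 1 (j - 1) - qq 5 1 j := by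
  unfold Ls
  rw [sum_eq_single (j - 1)]
  · have h1 : ((j - 1 : ℕ) : ℝ) + 1 = (j : ℝ) := by
      have : ((j - 1 + 1 : ℕ) : ℝ) = (j : ℝ) := by congr 1; omega
      rw [← this]; push_cast; ring
    have h2 : at' j ((((j - 1 : ℕ) : ℝ) + 1) * 1) = 1 := by
      unfold at'; rw [mul_one, if_pos h1]
    show tau 5 1 γ (j - 1) * at' j ((((j - 1 : ℕ) : ℝ) + 1) * 1) = _
    rw [h2, mul_one]
    unfold tau
    rw [if_neg (by omega)]
    congr 2
    omega
  · intro t _ ht
    have : at' j (((t : ℝ) + 1) * 1) = 0 := by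
      unfold at'
      rw [if_neg]
      intro h
      rw [mul_one] at h
      have : t + 1 = j := by exact_mod_cast h
      omega
    show tau 5 1 γ t * at' j (((t : ℝ) + 1) * 1) = 0
    rw [this, mul_zero]
  · intro h
    exact absurd (mem_range.2 (by omega)) h

theorem base (S : Finset ℕ) (r : ℕ → ℤ) (hS : ∀ m ∈ S, 2 ≤ m) (γ : ℕ) (hγ : 50 ≤ γ) :
    St S r γ 7 (11 / 6) 4 0 49 a0 := by
  have f1 := frame_triv S r hS
  have f2 := frame_step f1 5 γ 1 (by norm_num) (by norm_num) (by norm_num) (by norm_num) (by norm_num)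
  have hW : (1 : ℝ) - (fun φ : ℝ → ℝ => φ 1) (fun z => max 0 (z - 1)) / (((5 : ℕ) : ℝ) - 1 - 1) = 1 := by
    simp
  rw [hW] at f2
  set L5 : (ℝ → ℝ) → ℝ := Ls (fun φ : ℝ → ℝ => φ 1) 5 γ 1 with hL5
  have hcop : Nat.Coprime (1 * 5 ^ γ) 3 := by
    rw [one_mul]; exact Nat.Coprime.pow_left γ (by norm_num)
  have h3 : (3 : ℕ) ∉ Dn {1} 5 γ := by
    intro h
    unfold Dn at h
    rw [mem_image] at h
    obtain ⟨⟨m, e⟩, hme, h⟩ := h
    rw [mem_product, mem_singleton] at hme
    simp only at hme h
    rw [hme.1, one_mul] at h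
    rcases Nat.eq_zero_or_pos e with h0 | h0
    · subst h0; norm_num at h
    · have : 5 ∣ 3 := h ▸ dvd_pow_self 5 h0.ne'
      omega
  have f3 := frame_three f2 hcop h3
  have law5 : Law L5 := f2.law
  have m1 : L5 (fun z => z) ≤ 4 / 3 := by
    have := law_triv.step_id 5 γ 1 (by norm_num) (by norm_num) (M := 1) le_rfl
    norm_num at this
    exact this
  have m2 : L5 (fun z => z ^ 2) ≤ 13 / 6 := by
    have := law_triv.step_sq 5 γ 1 (by norm_num) (by norm_num) (M := 1) (by norm_num)
    norm_num at this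
    exact this
  refine ⟨1 * 5 ^ γ * 3, insert 3 (Dn {1} 5 γ), _, f3.weaken (by norm_num), ?_, ?_, ?_, ?_, ?_⟩
  · intro p hp hpd
    rw [one_mul] at hpd
    rcases (Nat.Prime.dvd_mul hp).1 hpd with h1 | h1
    · have := (Nat.prime_dvd_prime_iff_eq hp (by norm_num)).1 (hp.dvd_of_dvd_pow h1)
      omega
    · have := Nat.le_of_dvd (by norm_num) h1
      omega
  · intro m hm0 hm h2 h9 h15 hp
    rw [mem_insert]
    by_cases hm3 : 3 ∣ m
    · left
      obtain ⟨k, rfl⟩ := hm3
      have hk1 : k = 1 := by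
        by_contra hk
        have hq := Nat.minFac_prime hk
        have hqd := Nat.minFac_dvd k
        have h7 := hp _ hq (hqd.mul_left 3)
        have hq2 := hq.two_le
        interval_cases hqq : k.minFac
        · exact h2 (hqd.mul_left 3)
        · exact h9 (by obtain ⟨l, hl⟩ := hqd; exact ⟨l, by rw [hl]; ring⟩)
        · norm_num at hq
        · exact h15 (by obtain ⟨l, hl⟩ := hqd; exact ⟨l, by rw [hl]; ring⟩)
        · norm_num at hq
      rw [hk1]
    · right
      obtain ⟨e, m', hm', rfl⟩ := Nat.exists_eq_pow_mul_and_not_dvd hm0.ne' 5 (by norm_num)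
      have hm'0 : 0 < m' := Nat.pos_of_ne_zero fun h0 => by simp [h0] at hm0
      have hk1 : m' = 1 := by
        by_contra hk
        have hq := Nat.minFac_prime hk
        have hqd := Nat.minFac_dvd m'
        have h7 := hp _ hq (hqd.mul_left _)
        have hq2 := hq.two_le
        interval_cases hqq : m'.minFac
        · exact h2 (hqd.mul_left _)
        · exact hm3 (hqd.mul_left _)
        · norm_num at hq
        · exact hm' hqd
        · norm_num at hq
      subst hk1
      have he : e < γ := by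
        have h1 : 2 ^ e < 2 ^ γ := by
          calc 2 ^ e ≤ 5 ^ e := Nat.pow_le_pow_left (by norm_num) e
            _ = 5 ^ e * 1 := (mul_one _).symm
            _ < 2 ^ γ := hm
        exact (Nat.pow_lt_pow_iff_right (by norm_num)).1 h1
      unfold Dn
      rw [mem_image]
      exact ⟨(1, e), mem_product.2 ⟨mem_singleton_self 1, mem_range.2 (by simp only; omega)⟩, by simp only; ring⟩
  · show (1 / 2 : ℝ) * (L5 (fun z => z) + L5 (fun z => z + 1)) ≤ 11 / 6
    rw [law5.add (fun z => z) (fun _ => 1), law5.one]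
    linarith
  · show (1 / 2 : ℝ) * (L5 (fun z => z ^ 2) + L5 (fun z => (z + 1) ^ 2)) ≤ 4
    have e1 : (fun z : ℝ => (z + 1) ^ 2) = fun z => z ^ 2 + (2 * z + 1) := by funext z; ring
    rw [e1, law5.add (fun z => z ^ 2) (fun z => 2 * z + 1), law5.add (fun z => 2 * z) (fun _ => 1),
      law5.smul 2 (fun z => z), law5.one]
    linarith
  · intro j hj hK
    show (1 / 2 : ℝ) * (L5 (at' j) + L5 (fun z => at' j (z + 1))) ≤ a0 j
    have e1 : L5 (at' j) = qq 5 1 (j - 1) - qq 5 1 j := at5 γ j hj (by omega)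
    have e2 : L5 (fun z => at' j (z + 1)) = if j = 1 then 0 else L5 (at' (j - 1)) := by
      split_ifs with h1
      · rw [← law5.zero]
        refine law5.congr fun n hn => ?_
        subst h1
        unfold at'
        rw [if_neg]
        intro h
        have : n + 1 = 1 := by exact_mod_cast h
        omega
      · refine law5.congr fun n hn => ?_
        unfold at'
        have : ((n : ℝ) + 1 = (j : ℝ)) ↔ ((n : ℝ) = ((j - 1 : ℕ) : ℝ)) := by
          constructor
          · intro h
            have h' : n + 1 = j := by exact_mod_cast h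
            have : n = j - 1 := by omega
            exact_mod_cast this
          · intro h
            have h' : n = j - 1 := by exact_mod_cast h
            have : n + 1 = j := by omega
            exact_mod_cast this
        simp only [this]
    rw [e1, e2]
    unfold a0
    rcases Nat.lt_or_ge j 3 with h1 | h1
    · interval_cases j
      · rw [if_pos rfl, if_pos rfl]
        norm_num [qq]
      · rw [if_neg (by norm_num), if_neg (by norm_num), if_pos rfl]
        rw [show L5 (at' (2 - 1)) = qq 5 1 (1 - 1) - qq 5 1 1 from at5 γ 1 le_rfl (by omega)]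
        norm_num [qq]
    · rw [if_neg (by omega), if_neg (by omega), if_neg (by omega)]
      rw [show L5 (at' (j - 1)) = qq 5 1 (j - 1 - 1) - qq 5 1 (j - 1) from at5 γ (j - 1) (by omega) (by omega)]
      obtain ⟨i, rfl⟩ : ∃ i, j = i + 3 := ⟨j - 3, by omega⟩
      rw [show i + 3 - 1 - 1 = i + 1 from by omega, show i + 3 - 1 = (i + 1) + 1 from by omega,
        show i + 3 = (i + 2) + 1 from rfl, q5, q5, q5]
      apply le_of_eq
      ring

end Pool.Agent.Helper66.OC
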