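import Mathlib

/-!
# Project OC, interface for the second moment phase

`I n M C` is the state before the number `n` is looked at (second moment `M`, cost so far `C`).
-/

set_option autoImplicit false

namespace Pool.Agent.Helper66.OC

/-- the closure properties of the states -/
structure Clo (I : ℕ → ℝ → ℝ → Prop) : Prop where
  skip : ∀ n M C, 7 ≤ n → ¬ n.Prime → I n M C → I (n + 1) M C
  step : ∀ n M C, 7 ≤ n → n.Prime → I n M C →
    I (n + 1) (M * (1 + 4 * (3 * (n : ℝ) - 1) / (3 * ((n : ℝ) - 1) ^ 2))) (C + 4 * M / (3 * ((n : ℝ) - 1) ^ 2))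
  mono : ∀ n M C M' C', M ≤ M' → C ≤ C' → I n M C → I n M' C'
  pos : ∀ n M C, I n M C → 1 ≤ M

end Pool.Agent.Helper66.OC
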