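import Pool.Agent.Helper66.OC.Defs

/-!
# Project OC, interface for the first phase (primes 7, ..., 199)

`J n M1 M2 C a` is the state before the number `n` is looked at: first and second moment, cost so far, bounds of the
atoms `1, ..., 48`.
-/

set_option autoImplicit false

namespace Pool.Agent.Helper66.OC

open Finset

/-- the closure properties of the states of the first phase -/
structure Clo1 (J : ℕ → ℝ → ℝ → ℝ → (ℕ → ℝ) → Prop) : Prop where
  skip : ∀ n M1 M2 C a, 7 ≤ n → ¬ n.Prime → J n M1 M2 C a → J (n + 1) M1 M2 C a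
  step : ∀ (n k : ℕ) M1 M2 C a, 7 ≤ n → n.Prime → 1 ≤ k → k ≤ 48 → 2 * k + 2 ≤ n → J n M1 M2 C a →
    J (n + 1) (M1 * (1 + 1 / ((n : ℝ) - 1 - k)))
      (M2 * (1 + (3 * (n : ℝ) - 1) / (((n : ℝ) - 1) * ((n : ℝ) - 1 - k))))
      (C + (M1 - k + ∑ j ∈ Ico 1 k, ((k : ℝ) - j) * a j) / ((n : ℝ) - 1 - k))
      (fun j => (∑ t ∈ range 8, if (t + 1) ∣ j then (qq n k t - qq n k (t + 1)) * a (j / (t + 1)) else 0) + qq n k 8)
  mono : ∀ n M1 M2 C a M1' M2' C' a', M1 ≤ M1' → M2 ≤ M2' → C ≤ C' → (∀ j : ℕ, 1 ≤ j → j < 49 → a j ≤ a' j) →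
    J n M1 M2 C a → J n M1' M2' C' a'

/-- the atoms after the primes 3 and 5 -/
noncomputable def a0 (j : ℕ) : ℝ := if j = 1 then 11 / 30 else if j = 2 then 71 / 150 else 16 / 5 * (1 / 5 : ℝ) ^ (j - 1)

end Pool.Agent.Helper66.OC
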