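import Pool.Agent.Helper66.OC.Defs

set_option autoImplicit false

namespace Pool.Agent.Helper66.OC

open Finset

/-- convexity: increments grow -/
theorem Good.incr {φ : ℝ → ℝ} (h : Good φ) {A S W : ℝ} (hA : 0 ≤ A) (hAS : A ≤ S) (hW : 0 ≤ W) :
    φ (A + W) + φ S ≤ φ A + φ (S + W) := by
  rcases eq_or_lt_of_le (show 0 ≤ S - A + W by linarith) with h0 | h0
  · have hW0 : W = 0 := by linarith
    have hS0 : S = A := by linarith
    subst hW0; subst hS0; simp
  · set l : ℝ := W / (S - A + W) with hl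
    have hl0 : 0 ≤ l := by positivity
    have hl1 : 0 ≤ 1 - l := by
      rw [hl, sub_nonneg, div_le_one h0]; linarith
    have hml : l * (S - A + W) = W := by rw [hl]; field_simp
    have hAm : A ∈ Set.Ici (0 : ℝ) := hA
    have hSm : S + W ∈ Set.Ici (0 : ℝ) := by show (0 : ℝ) ≤ S + W; linarith
    have h1 := h.conv.2 hAm hSm hl1 hl0 (by ring)
    have h2 := h.conv.2 hAm hSm hl0 hl1 (by ring)
    simp only [smul_eq_mul] at h1 h2
    have e1 : (1 - l) * A + l * (S + W) = A + W := by linear_combination hml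
    have e2 : l * A + (1 - l) * (S + W) = S := by linear_combination -hml
    rw [e1] at h1; rw [e2] at h2
    linarith

/-- one increment -/
theorem Good.one {φ : ℝ → ℝ} (h : Good φ) {A S a W : ℝ} (hA : 0 ≤ A) (hAS : A ≤ S) (ha : 0 ≤ a) (haW : a ≤ W) :
    φ (A + a) ≤ φ A + a / W * (φ (S + W) - φ S) := by
  have hW : 0 ≤ W := ha.trans haW
  rcases eq_or_lt_of_le hW with h0 | h0
  · have : a = 0 := by linarith
    subst this; simp
  · set t : ℝ := a / W with ht
    have ht0 : 0 ≤ t := by positivity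
    have ht1 : 0 ≤ 1 - t := by rw [ht, sub_nonneg, div_le_one h0]; exact haW
    have htW : t * W = a := by rw [ht]; field_simp
    have hAm : A ∈ Set.Ici (0 : ℝ) := hA
    have hWm : A + W ∈ Set.Ici (0 : ℝ) := by show (0 : ℝ) ≤ A + W; linarith
    have h1 := h.conv.2 hAm hWm ht1 ht0 (by ring)
    simp only [smul_eq_mul] at h1
    have e1 : (1 - t) * A + t * (A + W) = A + a := by linear_combination htW
    rw [e1] at h1
    have h2 := h.incr hA hAS hW
    have h3 : t * φ (A + W) + t * φ S ≤ t * φ A + t * φ (S + W) := by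
      have := mul_le_mul_of_nonneg_left h2 ht0; linarith
    linarith

/-- all increments -/
theorem Good.all {φ : ℝ → ℝ} (h : Good φ) (a W : ℕ → ℝ) (ha : ∀ e, 0 ≤ a e) (haW : ∀ e, a e ≤ W e) (n : ℕ) :
    φ (∑ e ∈ range n, a e) ≤ φ 0 + ∑ e ∈ range n, a e / W e *
      (φ (∑ i ∈ range (e + 1), W i) - φ (∑ i ∈ range e, W i)) := by
  induction n with
  | zero => simp
  | succ n ih =>
    rw [sum_range_succ, sum_range_succ (fun e => a e / W e * (φ (∑ i ∈ range (e + 1), W i) - φ (∑ i ∈ range e, W i))),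
      sum_range_succ (fun i => W i) n]
    have := h.one (A := ∑ e ∈ range n, a e) (S := ∑ i ∈ range n, W i) (a := a n) (W := W n)
      (sum_nonneg fun e _ => ha e) (sum_le_sum fun e _ => haW e) (ha n) (haW n)
    linarith

/-- Abel summation -/
theorem abel (f : ℕ → ℝ) (q : ℕ → ℝ) (hq : q 0 = 1) (n : ℕ) :
    f 0 + ∑ e ∈ range (n + 1), q e * (f (e + 1) - f e) =
      ∑ t ∈ range (n + 1), (q t - if t = n then 0 else q (t + 1)) * f (t + 1) := by
  have key : ∀ n : ℕ, f 0 + ∑ e ∈ range (n + 1), q e * (f (e + 1) - f e) =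
      ∑ t ∈ range n, (q t - q (t + 1)) * f (t + 1) + q n * f (n + 1) := by
    intro n
    induction n with
    | zero => simp [hq]
    | succ n ih =>
      rw [sum_range_succ, ← add_assoc, ih, sum_range_succ]; ring
  rw [key, sum_range_succ]
  congr 1
  · refine sum_congr rfl fun t ht => ?_
    rw [if_neg (by have := mem_range.1 ht; omega)]
  · simp

/-- the comparison in one fibre -/
theorem Good.fibre {φ : ℝ → ℝ} (h : Good φ) {Y : Type*} [Fintype Y] (v : Y → ℝ) (u : ℝ) (γ : ℕ) (a : ℕ → Y → ℝ)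
    (W q : ℕ → ℝ) (hu : 0 ≤ u) (hWn : ∀ e, 0 ≤ W e) (hv : ∀ y, 0 ≤ v y) (hvu : ∑ y, v y ≤ u) (ha : ∀ e y, 0 ≤ a e y) (haW : ∀ e y, a e y ≤ W e)
    (hq0 : q 0 = 1) (hqn : ∀ e, 0 ≤ q e)
    (hq : ∀ e, 1 ≤ e → e ≤ γ → ∑ y, v y * a e y ≤ u * q e * W e) :
    ∑ y, v y * φ (∑ e ∈ range (γ + 1), a e y) ≤
      u * ∑ t ∈ range (γ + 1), (q t - if t = γ then 0 else q (t + 1)) * φ (∑ i ∈ range (t + 1), W i) := by
  set D : ℕ → ℝ := fun e => φ (∑ i ∈ range (e + 1), W i) - φ (∑ i ∈ range e, W i) with hD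
  have hDn : ∀ e, 0 ≤ D e := by
    intro e
    rw [hD]; simp only; rw [sub_nonneg, sum_range_succ]
    apply h.mono
    · exact sum_nonneg fun i _ => hWn i
    · exact add_nonneg (sum_nonneg fun i _ => hWn i) (hWn e)
    · linarith [hWn e]
  have h1 : ∑ y, v y * φ (∑ e ∈ range (γ + 1), a e y) ≤
      ∑ y, v y * (φ 0 + ∑ e ∈ range (γ + 1), a e y / W e * D e) :=
    sum_le_sum fun y _ => mul_le_mul_of_nonneg_left
      (h.all (fun e => a e y) W (fun e => ha e y) (fun e => haW e y) (γ + 1)) (hv y)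
  have h2 : ∑ y, v y * (φ 0 + ∑ e ∈ range (γ + 1), a e y / W e * D e) =
      (∑ y, v y) * φ 0 + ∑ e ∈ range (γ + 1), D e / W e * ∑ y, v y * a e y := by
    simp_rw [mul_add, sum_add_distrib, mul_sum, sum_mul]
    congr 1
    rw [sum_comm]
    refine sum_congr rfl fun e _ => sum_congr rfl fun y _ => ?_
    ring
  have h3 : ∀ e ∈ range (γ + 1), D e / W e * ∑ y, v y * a e y ≤ u * (q e * D e) := by
    intro e he
    rcases eq_or_lt_of_le (hWn e) with h0 | h0
    · rw [← h0]; simp only [div_zero, zero_mul]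
      exact mul_nonneg hu (mul_nonneg (hqn e) (hDn e))
    · have h4 : ∑ y, v y * a e y ≤ u * q e * W e := by
        rcases Nat.eq_zero_or_pos e with h5 | h5
        · subst h5
          rw [hq0, mul_one]
          calc ∑ y, v y * a 0 y ≤ ∑ y, v y * W 0 := sum_le_sum fun y _ => mul_le_mul_of_nonneg_left (haW 0 y) (hv y)
            _ = (∑ y, v y) * W 0 := by rw [sum_mul]
            _ ≤ u * W 0 := mul_le_mul_of_nonneg_right hvu (hWn 0)
        · exact hq e h5 (by have := mem_range.1 he; omega)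
      calc D e / W e * ∑ y, v y * a e y ≤ D e / W e * (u * q e * W e) :=
            mul_le_mul_of_nonneg_left h4 (div_nonneg (hDn e) h0.le)
        _ = u * (q e * D e) := by field_simp
  have h5 := abel (fun e => φ (∑ i ∈ range e, W i)) q hq0 γ
  simp only [range_zero, sum_empty] at h5
  rw [← h5]
  calc _ ≤ _ := h1
    _ = _ := h2
    _ ≤ u * φ 0 + ∑ e ∈ range (γ + 1), u * (q e * D e) :=
        add_le_add (mul_le_mul_of_nonneg_right hvu h.zero) (sum_le_sum h3)
    _ = u * (φ 0 + ∑ e ∈ range (γ + 1), q e * D e) := by rw [mul_add, mul_sum]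

/-- Jensen -/
theorem Good.jensen {φ : ℝ → ℝ} (h : Good φ) (W : ℕ → ℝ) (hW : ∀ e, 0 ≤ W e) (t : ℕ) :
    φ (∑ i ∈ range (t + 1), W i) ≤ ∑ i ∈ range (t + 1), ((t : ℝ) + 1)⁻¹ * φ (((t : ℝ) + 1) * W i) := by
  have ht : (0 : ℝ) < (t : ℝ) + 1 := by positivity
  have h1 := h.conv.map_sum_le (t := range (t + 1)) (w := fun _ => ((t : ℝ) + 1)⁻¹)
    (p := fun i => ((t : ℝ) + 1) * W i) (fun i _ => by positivity) (by simp; field_simp)
    (fun i _ => by show (0 : ℝ) ≤ _; exact mul_nonneg ht.le (hW i))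
  simp only [smul_eq_mul] at h1
  have e1 : ∑ i ∈ range (t + 1), ((t : ℝ) + 1)⁻¹ * (((t : ℝ) + 1) * W i) = ∑ i ∈ range (t + 1), W i := by
    refine sum_congr rfl fun i _ => ?_
    rw [← mul_assoc, inv_mul_cancel₀ ht.ne', one_mul]
  rw [e1] at h1
  exact h1

theorem Good.scale {φ : ℝ → ℝ} (h : Good φ) (t : ℕ) : Good (fun z => φ (((t : ℝ) + 1) * z)) := by
  have ht : (0 : ℝ) ≤ (t : ℝ) + 1 := by positivity
  refine ⟨⟨convex_Ici 0, ?_⟩, ?_, by simpa using h.zero⟩
  · intro x hx y hy a b ha hb hab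
    have h1 := h.conv.2 (x := ((t : ℝ) + 1) * x) (y := ((t : ℝ) + 1) * y) (mul_nonneg ht hx) (mul_nonneg ht hy) ha hb hab
    simp only [smul_eq_mul] at h1 ⊢
    convert h1 using 2
    ring
  · intro x hx y hy hxy
    exact h.mono (mul_nonneg ht hx) (mul_nonneg ht hy) (mul_le_mul_of_nonneg_left hxy ht)

end Pool.Agent.Helper66.OC
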