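import Mathlib

/-!
# Project OC (odd coverings, MP_88d7a5_nt), definitions

The distortion method of Balister, Bollobas, Morris, Sahasrabudhe and Tiba with the cost `E (alpha - delta)_+` and a
comparison, in the increasing convex order, of the number of classes hit with an explicit integer valued law.
-/

set_option autoImplicit false

namespace Pool.Agent.Helper66.OC

open Finset

/-- test functions: convex, nondecreasing and nonnegative on `[0, ∞)` -/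
structure Good (φ : ℝ → ℝ) : Prop where
  conv : ConvexOn ℝ (Set.Ici 0) φ
  mono : MonotoneOn φ (Set.Ici 0)
  zero : 0 ≤ φ 0

/-- the number of moduli in `D` whose class contains `a` -/
def cnt (D : Finset ℕ) (c : ℕ → ℤ) (a : ℤ) : ℕ := (D.filter (fun m : ℕ => a ≡ c m [ZMOD (m : ℤ)])).card

/-- expectations of laws carried by the positive integers -/
structure Law (L : (ℝ → ℝ) → ℝ) : Prop where
  add : ∀ φ ψ : ℝ → ℝ, L (fun z => φ z + ψ z) = L φ + L ψ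
  smul : ∀ (a : ℝ) (φ : ℝ → ℝ), L (fun z => a * φ z) = a * L φ
  mono : ∀ φ ψ : ℝ → ℝ, (∀ n : ℕ, 1 ≤ n → φ n ≤ ψ n) → L φ ≤ L ψ
  one : L (fun _ => 1) = 1

/-- the tail of the law of the number of powers of `p` -/
noncomputable def qq (p : ℕ) (κ : ℝ) (e : ℕ) : ℝ :=
  if e = 0 then 1 else ((p : ℝ) - 1) / ((p : ℝ) - 1 - κ) * ((p : ℝ)⁻¹) ^ e

/-- the point masses -/
noncomputable def tau (p : ℕ) (κ : ℝ) (γ t : ℕ) : ℝ := qq p κ t - if t = γ then 0 else qq p κ (t + 1)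

/-- one step for the law: multiply by `1 + T` -/
noncomputable def Ls (L : (ℝ → ℝ) → ℝ) (p γ : ℕ) (κ : ℝ) (φ : ℝ → ℝ) : ℝ :=
  ∑ t ∈ range (γ + 1), tau p κ γ t * L (fun z => φ (((t : ℝ) + 1) * z))

/-- the new set of moduli -/
def Dn (D : Finset ℕ) (p γ : ℕ) : Finset ℕ := (D ×ˢ range (γ + 1)).image (fun z => z.1 * p ^ z.2)

/-- a weight on residues modulo `Q`, carried by the points not covered by the moduli in `D`, of mass at least `W`,
whose hitting numbers are dominated by the law `L` -/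
structure Frame (S : Finset ℕ) (r : ℕ → ℤ) (Q : ℕ) (D : Finset ℕ) (L : (ℝ → ℝ) → ℝ) (W : ℝ) : Prop where
  law : Law L
  pos : 0 < Q
  dvd : ∀ d ∈ D, d ∣ Q
  ex : ∃ (X : Type) (_ : Fintype X) (w : X → ℝ) (ρ : X → ℤ), (∀ x, 0 ≤ w x) ∧
    (∀ x, w x ≠ 0 → ∀ m ∈ S, m ∈ D → ¬ ρ x ≡ r m [ZMOD (m : ℤ)]) ∧
    (∀ (c : ℕ → ℤ) (φ : ℝ → ℝ), Good φ → ∑ x, w x * φ (cnt D c (ρ x) : ℝ) ≤ L φ) ∧ W ≤ ∑ x, w x

/-- the atom at `j` -/
noncomputable def at' (j : ℕ) (z : ℝ) : ℝ := if z = (j : ℝ) then 1 else 0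

/-- the state before the number `n` is looked at: all primes `< n` are done -/
def St (S : Finset ℕ) (r : ℕ → ℤ) (γ n : ℕ) (M1 M2 C : ℝ) (K : ℕ) (a : ℕ → ℝ) : Prop :=
  ∃ (Q : ℕ) (D : Finset ℕ) (L : (ℝ → ℝ) → ℝ), Frame S r Q D L (1 - C) ∧
    (∀ p : ℕ, p.Prime → p ∣ Q → p < n) ∧
    (∀ m : ℕ, 0 < m → m < 2 ^ γ → ¬ 2 ∣ m → ¬ 9 ∣ m → ¬ 15 ∣ m → (∀ p : ℕ, p.Prime → p ∣ m → p < n) → m ∈ D) ∧
    L (fun z => z) ≤ M1 ∧ L (fun z => z ^ 2) ≤ M2 ∧ (∀ j : ℕ, 1 ≤ j → j < K → L (at' j) ≤ a j)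

end Pool.Agent.Helper66.OC
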