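import Pool.Agent.Helper66.OC.Fib

set_option autoImplicit false

namespace Pool.Agent.Helper66.OC

open Finset

/-- the distorted weight on one fibre -/
theorem fibre_weight (S : Finset ℕ) (r : ℕ → ℤ) {Q : ℕ} {D : Finset ℕ} (hD : ∀ d ∈ D, d ∣ Q) (p γ : ℕ) (κ : ℝ)
    (hp : 2 ≤ p) (hκ0 : 0 ≤ κ) (hκ1 : κ < p - 1) (u : ℝ) (hu : 0 ≤ u) (a : ℤ) (z : Fin (p ^ γ) → ℤ)
    (hz1 : ∀ y, z y ≡ a [ZMOD (Q : ℤ)]) (hz2 : ∀ y, z y ≡ ((y : ℕ) : ℤ) [ZMOD ((p ^ γ : ℕ) : ℤ)]) :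
    ∃ v : Fin (p ^ γ) → ℝ, (∀ y, 0 ≤ v y) ∧
      (∀ y, v y ≠ 0 → u ≠ 0 ∧ ∀ m ∈ S, ∀ m' ∈ D, ∀ e < γ, m = m' * p ^ (e + 1) → ¬ z y ≡ r m [ZMOD (m : ℤ)]) ∧
      (∑ y, v y ≤ u) ∧
      (u - u * ((∑ e ∈ range γ, ((p : ℝ) - 1) * ((p : ℝ)⁻¹) ^ (e + 1) *
        max 0 ((cnt D (fun m => r (m * p ^ (e + 1))) a : ℝ) - κ)) / ((p : ℝ) - 1 - κ)) ≤ ∑ y, v y) ∧
      (∀ (c : ℕ → ℤ) (φ : ℝ → ℝ), Good φ → ∑ y, v y * φ (cnt (Dn D p γ) c (z y) : ℝ) ≤
        u * ∑ t ∈ range (γ + 1), tau p κ γ t * φ (∑ i ∈ range (t + 1), (cnt D (fun m => c (m * p ^ i)) a : ℝ))) := by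
  classical
  have hp0 : 0 < p := by omega
  have hpR : (2 : ℝ) ≤ p := by exact_mod_cast hp
  have hk : 0 < (p : ℝ) - 1 - κ := by linarith
  have hp1 : 0 < (p : ℝ) - 1 := by linarith
  set N : ℕ → ℝ := fun e => (cnt D (fun m => r (m * p ^ (e + 1))) a : ℝ) with hN
  set P : ℝ := (p : ℝ) ^ γ with hP
  have hP0 : 0 < P := by positivity
  set bad : Fin (p ^ γ) → Prop := fun y => ∃ m ∈ S, ∃ m' ∈ D, ∃ e < γ, m = m' * p ^ (e + 1) ∧ z y ≡ r m [ZMOD (m : ℤ)]
    with hbad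
  set B : ℝ := ((univ.filter bad).card : ℝ) with hB
  set α : ℝ := B / P with hα
  set δ : ℝ := κ / ((p : ℝ) - 1) with hδ
  have hδ1 : 1 - δ = ((p : ℝ) - 1 - κ) / ((p : ℝ) - 1) := by rw [hδ]; field_simp
  have hδ2 : 0 < 1 - δ := by rw [hδ1]; positivity
  set m0 : ℝ := max (1 - α) (1 - δ) with hm0
  have hm0p : 0 < m0 := lt_max_of_lt_right hδ2
  set v : Fin (p ^ γ) → ℝ := fun y => if bad y then 0 else u / (P * m0) with hv
  have hv0 : ∀ y, 0 ≤ v y := by
    intro y; rw [hv]; simp only; split_ifs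
    · exact le_rfl
    · positivity
  have hvle : ∀ y, v y ≤ u / (P * (1 - δ)) := by
    intro y; rw [hv]; simp only; split_ifs
    · positivity
    · apply div_le_div_of_nonneg_left hu (by positivity)
      exact mul_le_mul_of_nonneg_left (le_max_right _ _) hP0.le
  -- the total mass
  have hcardP : ((Fintype.card (Fin (p ^ γ)) : ℕ) : ℝ) = P := by rw [Fintype.card_fin]; push_cast; rfl
  have hsum : ∑ y, v y = u * (1 - α) / m0 := by
    have e1 : ∑ y, v y = ((univ.filter (fun y => ¬ bad y)).card : ℝ) * (u / (P * m0)) := by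
      rw [hv]
      rw [← sum_filter_add_sum_filter_not univ bad]
      rw [sum_congr rfl (g := fun _ => (0 : ℝ)) (fun y hy => if_pos (mem_filter.1 hy).2),
        sum_congr (s₁ := univ.filter (fun y => ¬ bad y)) rfl (g := fun _ => u / (P * m0))
          (fun y hy => if_neg (mem_filter.1 hy).2)]
      simp
    have e2 : ((univ.filter (fun y => ¬ bad y)).card : ℝ) = P - B := by
      have := card_filter_add_card_filter_not (s := (univ : Finset (Fin (p ^ γ)))) bad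
      rw [card_univ] at this
      have h3 : (((univ.filter bad).card : ℕ) : ℝ) + ((univ.filter (fun y => ¬ bad y)).card : ℝ) = P := by
        rw [← hcardP, ← this]; push_cast; rfl
      linarith
    rw [e1, e2, hα]
    field_simp
  have hα0 : 0 ≤ α := by positivity
  have hsumle : ∑ y, v y ≤ u := by
    rw [hsum, div_le_iff₀ hm0p]
    exact mul_le_mul_of_nonneg_left (le_max_left _ _) hu
  -- the bound of alpha
  have hαle : ((p : ℝ) - 1) * α ≤ ∑ e ∈ range γ, ((p : ℝ) - 1) * ((p : ℝ)⁻¹) ^ (e + 1) * N e := by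
    have e1 : (univ.filter bad).card ≤ ∑ e ∈ range γ, ∑ y : Fin (p ^ γ), hit D p (e + 1) r a ((y : ℕ) : ℤ) := by
      rw [sum_comm]
      rw [card_filter]
      refine sum_le_sum fun y _ => ?_
      split_ifs with hb
      · obtain ⟨m, hmS, m', hm', e, he, rfl, hz⟩ := hb
        have h5 := split_mod (hD m' hm') (show e + 1 ≤ γ by omega) (hz1 y) (hz2 y) hz
        have h6 : 1 ≤ hit D p (e + 1) r a ((y : ℕ) : ℤ) := by
          unfold hit
          exact card_pos.2 ⟨m', mem_filter.2 ⟨hm', h5⟩⟩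
        exact h6.trans (single_le_sum (f := fun e => hit D p (e + 1) r a ((y : ℕ) : ℤ))
          (fun _ _ => Nat.zero_le _) (mem_range.2 he))
      · exact Nat.zero_le _
    have e2 : B ≤ ∑ e ∈ range γ, N e * (P * ((p : ℝ)⁻¹) ^ (e + 1)) := by
      have : B ≤ ((∑ e ∈ range γ, ∑ y : Fin (p ^ γ), hit D p (e + 1) r a ((y : ℕ) : ℤ) : ℕ) : ℝ) := by
        rw [hB]; exact_mod_cast e1
      refine this.trans (le_of_eq ?_)
      push_cast
      refine sum_congr rfl fun e he => ?_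
      exact hit_sum hp0 (by have := mem_range.1 he; omega)
    have e3 : α ≤ ∑ e ∈ range γ, N e * ((p : ℝ)⁻¹) ^ (e + 1) := by
      rw [hα, div_le_iff₀ hP0, sum_mul]
      refine e2.trans (le_of_eq (sum_congr rfl fun e _ => by ring))
    calc ((p : ℝ) - 1) * α ≤ ((p : ℝ) - 1) * ∑ e ∈ range γ, N e * ((p : ℝ)⁻¹) ^ (e + 1) :=
          mul_le_mul_of_nonneg_left e3 hp1.le
      _ = _ := by rw [mul_sum]; exact sum_congr rfl fun e _ => by ring
  refine ⟨v, hv0, ?_, hsumle, ?_, ?_⟩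
  · intro y hy
    have hnb : ¬ bad y := by
      intro hb; apply hy; rw [hv]; simp only; rw [if_pos hb]
    refine ⟨?_, ?_⟩
    · rintro rfl
      apply hy; rw [hv]; simp only; rw [if_neg hnb]; simp
    · intro m hm m' hm' e he hme hz
      exact hnb ⟨m, hm, m', hm', e, he, hme, hz⟩
  · -- mass from below
    rw [hsum]
    set Sg : ℝ := ∑ e ∈ range γ, ((p : ℝ) - 1) * ((p : ℝ)⁻¹) ^ (e + 1) * max 0 (N e - κ) with hS
    have hS0 : 0 ≤ Sg := sum_nonneg fun e _ => by positivity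
    rcases le_total (1 - δ) (1 - α) with h1 | h1
    · have : m0 = 1 - α := max_eq_left h1
      have h2 : (1 - α) ≠ 0 := by linarith
      rw [this, mul_div_assoc, div_self h2, mul_one]
      have : 0 ≤ u * (Sg / ((p : ℝ) - 1 - κ)) := by positivity
      linarith
    · have h2 : m0 = 1 - δ := max_eq_right h1
      have h3 : ((p : ℝ) - 1) * α - κ ≤ Sg := by
        have e1 : ∑ e ∈ range γ, ((p : ℝ) - 1) * ((p : ℝ)⁻¹) ^ (e + 1) * (N e - κ) ≤ Sg :=
          sum_le_sum fun e _ => mul_le_mul_of_nonneg_left (le_max_right _ _) (by positivity)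
        have e2 : ∑ e ∈ range γ, ((p : ℝ) - 1) * ((p : ℝ)⁻¹) ^ (e + 1) * (N e - κ) =
            (∑ e ∈ range γ, ((p : ℝ) - 1) * ((p : ℝ)⁻¹) ^ (e + 1) * N e) -
              (∑ e ∈ range γ, ((p : ℝ) - 1) * ((p : ℝ)⁻¹) ^ (e + 1)) * κ := by
          rw [sum_mul, ← sum_sub_distrib]
          exact sum_congr rfl fun e _ => by ring
        rw [geo (p : ℝ) (by positivity)] at e2
        have e3 : (1 - ((p : ℝ)⁻¹) ^ γ) * κ ≤ κ := by
          have : 0 ≤ ((p : ℝ)⁻¹) ^ γ * κ := by positivity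
          linarith
        linarith
      rw [h2, hδ1]
      have h4 : α - δ = (((p : ℝ) - 1) * α - κ) / ((p : ℝ) - 1) := by rw [hδ]; field_simp
      have h5 : u * (1 - α) / (((p : ℝ) - 1 - κ) / ((p : ℝ) - 1)) =
          u - u * ((((p : ℝ) - 1) * α - κ) / ((p : ℝ) - 1 - κ)) := by
        field_simp
        ring
      rw [h5]
      have h6 : (((p : ℝ) - 1) * α - κ) / ((p : ℝ) - 1 - κ) ≤ Sg / ((p : ℝ) - 1 - κ) :=
        div_le_div_of_nonneg_right h3 hk.le
      have := mul_le_mul_of_nonneg_left h6 hu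
      linarith
  · intro c φ hφ
    have h1 : ∀ y, v y * φ (cnt (Dn D p γ) c (z y) : ℝ) ≤
        v y * φ (∑ e ∈ range (γ + 1), (hit D p e c a ((y : ℕ) : ℤ) : ℝ)) := by
      intro y
      refine mul_le_mul_of_nonneg_left ?_ (hv0 y)
      have h2 := cnt_new (γ := γ) (p := p) hD c (hz1 y) (hz2 y)
      apply hφ.mono
      · show (0 : ℝ) ≤ _; positivity
      · show (0 : ℝ) ≤ _; positivity
      · exact_mod_cast h2
    refine (sum_le_sum fun y _ => h1 y).trans ?_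
    refine hφ.fibre v u γ (fun e y => (hit D p e c a ((y : ℕ) : ℤ) : ℝ))
      (fun e => (cnt D (fun m => c (m * p ^ e)) a : ℝ)) (qq p κ) hu (fun e => by positivity) hv0 hsumle
      (fun e y => by positivity) (fun e y => by exact_mod_cast hit_le) (qq_zero p κ)
      (fun e => qq_pos p κ hp0 hκ1 e) ?_
    intro e he1 he2
    calc ∑ y, v y * (hit D p e c a ((y : ℕ) : ℤ) : ℝ)
        ≤ ∑ y : Fin (p ^ γ), u / (P * (1 - δ)) * (hit D p e c a ((y : ℕ) : ℤ) : ℝ) :=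
          sum_le_sum fun y _ => mul_le_mul_of_nonneg_right (hvle y) (by positivity)
      _ = u / (P * (1 - δ)) * ((cnt D (fun m => c (m * p ^ e)) a : ℝ) * (P * ((p : ℝ)⁻¹) ^ e)) := by
          rw [← mul_sum, hit_sum hp0 he2]
      _ = u * qq p κ e * (cnt D (fun m => c (m * p ^ e)) a : ℝ) := by
          unfold qq
          rw [if_neg (by omega), hδ1]
          field_simp

end Pool.Agent.Helper66.OC
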