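import Pool.Agent.Helper66.OC.Pre

set_option autoImplicit false

namespace Pool.Agent.Helper66.OC

open Finset

/-- the number of moduli `m' p^e` whose class is hit, seen through the two residues -/
def hit (D : Finset ℕ) (p e : ℕ) (c : ℕ → ℤ) (a b : ℤ) : ℕ :=
  (D.filter (fun m : ℕ => a ≡ c (m * p ^ e) [ZMOD (m : ℤ)] ∧ b ≡ c (m * p ^ e) [ZMOD ((p ^ e : ℕ) : ℤ)])).card

theorem split_mod {Q p γ e m : ℕ} (hm : m ∣ Q) (he : e ≤ γ) {z a b k : ℤ} (h1 : z ≡ a [ZMOD (Q : ℤ)])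
    (h2 : z ≡ b [ZMOD ((p ^ γ : ℕ) : ℤ)]) (h : z ≡ k [ZMOD ((m * p ^ e : ℕ) : ℤ)]) :
    a ≡ k [ZMOD (m : ℤ)] ∧ b ≡ k [ZMOD ((p ^ e : ℕ) : ℤ)] := by
  have e1 : (m : ℤ) ∣ (Q : ℤ) := by exact_mod_cast hm
  have e2 : ((p ^ e : ℕ) : ℤ) ∣ ((p ^ γ : ℕ) : ℤ) := by exact_mod_cast pow_dvd_pow p he
  have e3 : (m : ℤ) ∣ ((m * p ^ e : ℕ) : ℤ) := by exact_mod_cast Dvd.intro _ rfl
  have e4 : ((p ^ e : ℕ) : ℤ) ∣ ((m * p ^ e : ℕ) : ℤ) := by exact_mod_cast Dvd.intro_left _ rfl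
  exact ⟨(h1.symm.of_dvd e1).trans (h.of_dvd e3), (h2.symm.of_dvd e2).trans (h.of_dvd e4)⟩

theorem cnt_new {D : Finset ℕ} {Q p γ : ℕ} (hD : ∀ d ∈ D, d ∣ Q) (c : ℕ → ℤ) {z a b : ℤ}
    (h1 : z ≡ a [ZMOD (Q : ℤ)]) (h2 : z ≡ b [ZMOD ((p ^ γ : ℕ) : ℤ)]) :
    cnt (Dn D p γ) c z ≤ ∑ e ∈ range (γ + 1), hit D p e c a b := by
  unfold cnt hit
  have hsub : (Dn D p γ).filter (fun m : ℕ => z ≡ c m [ZMOD (m : ℤ)]) ⊆
      (range (γ + 1)).biUnion (fun e => (D.filter (fun m : ℕ => a ≡ c (m * p ^ e) [ZMOD (m : ℤ)] ∧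
        b ≡ c (m * p ^ e) [ZMOD ((p ^ e : ℕ) : ℤ)])).image (fun m => m * p ^ e)) := by
    intro m hm
    rw [mem_filter] at hm
    obtain ⟨hm1, hm2⟩ := hm
    unfold Dn at hm1
    rw [mem_image] at hm1
    obtain ⟨⟨m', e⟩, hme, rfl⟩ := hm1
    rw [mem_product] at hme
    obtain ⟨hm', he⟩ := hme
    simp only at hm' he hm2
    rw [mem_biUnion]
    refine ⟨e, he, ?_⟩
    rw [mem_image]
    refine ⟨m', ?_, rfl⟩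
    rw [mem_filter]
    exact ⟨hm', split_mod (hD m' hm') (by have := mem_range.1 he; omega) h1 h2 hm2⟩
  calc _ ≤ _ := card_le_card hsub
    _ ≤ ∑ e ∈ range (γ + 1), ((D.filter (fun m : ℕ => a ≡ c (m * p ^ e) [ZMOD (m : ℤ)] ∧
        b ≡ c (m * p ^ e) [ZMOD ((p ^ e : ℕ) : ℤ)])).image (fun m => m * p ^ e)).card := card_biUnion_le
    _ ≤ _ := sum_le_sum fun e _ => card_image_le

theorem hit_le {D : Finset ℕ} {p e : ℕ} {c : ℕ → ℤ} {a b : ℤ} :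
    hit D p e c a b ≤ cnt D (fun m => c (m * p ^ e)) a := by
  unfold hit cnt
  refine card_le_card fun m hm => ?_
  rw [mem_filter] at hm ⊢
  exact ⟨hm.1, hm.2.1⟩

theorem hit_sum {D : Finset ℕ} {p e γ : ℕ} (hp : 0 < p) (he : e ≤ γ) {c : ℕ → ℤ} {a : ℤ} :
    ∑ y : Fin (p ^ γ), (hit D p e c a ((y : ℕ) : ℤ) : ℝ) =
      (cnt D (fun m => c (m * p ^ e)) a : ℝ) * ((p : ℝ) ^ γ * ((p : ℝ)⁻¹) ^ e) := by
  unfold hit cnt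
  have h1 : ∀ y : Fin (p ^ γ), ((D.filter (fun m : ℕ => a ≡ c (m * p ^ e) [ZMOD (m : ℤ)] ∧
      ((y : ℕ) : ℤ) ≡ c (m * p ^ e) [ZMOD ((p ^ e : ℕ) : ℤ)])).card : ℝ) =
      ∑ m ∈ D.filter (fun m : ℕ => a ≡ c (m * p ^ e) [ZMOD (m : ℤ)]),
        if ((y : ℕ) : ℤ) ≡ c (m * p ^ e) [ZMOD ((p ^ e : ℕ) : ℤ)] then (1 : ℝ) else 0 := by
    intro y
    rw [← filter_filter, card_filter]
    push_cast
    rfl
  simp_rw [h1]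
  rw [sum_comm]
  have h2 : ∀ m : ℕ, ∑ y : Fin (p ^ γ), (if ((y : ℕ) : ℤ) ≡ c (m * p ^ e) [ZMOD ((p ^ e : ℕ) : ℤ)] then (1 : ℝ) else 0) =
      (p : ℝ) ^ γ * ((p : ℝ)⁻¹) ^ e := by
    intro m
    have h3 := count_mod (p ^ γ) (p ^ e) (pow_pos hp e) (pow_dvd_pow p he) (c (m * p ^ e))
    have h4 : ∑ y : Fin (p ^ γ), (if ((y : ℕ) : ℤ) ≡ c (m * p ^ e) [ZMOD ((p ^ e : ℕ) : ℤ)] then (1 : ℝ) else 0) =
        (((univ : Finset (Fin (p ^ γ))).filter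
          (fun y : Fin (p ^ γ) => ((y : ℕ) : ℤ) ≡ c (m * p ^ e) [ZMOD ((p ^ e : ℕ) : ℤ)])).card : ℝ) := by
      rw [card_filter]; push_cast; rfl
    rw [h4, h3, Nat.cast_div (pow_dvd_pow p he) (by positivity)]
    push_cast
    rw [inv_pow, div_eq_mul_inv]
  simp_rw [h2]
  rw [sum_const, nsmul_eq_mul]

theorem geo (p : ℝ) (hp : p ≠ 0) (γ : ℕ) : ∑ e ∈ range γ, (p - 1) * (p⁻¹) ^ (e + 1) = 1 - (p⁻¹) ^ γ := by
  induction γ with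
  | zero => simp
  | succ n ih =>
    rw [sum_range_succ, ih, pow_succ]
    field_simp
    ring

end Pool.Agent.Helper66.OC
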