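import Pool.Agent.Helper66.OC.Pre

set_option autoImplicit false

namespace Pool.Agent.Helper66.OC

open Finset

theorem Law.congr {L : (ℝ → ℝ) → ℝ} (h : Law L) {φ ψ : ℝ → ℝ} (e : ∀ n : ℕ, 1 ≤ n → φ n = ψ n) : L φ = L ψ :=
  le_antisymm (h.mono _ _ fun n hn => (e n hn).le) (h.mono _ _ fun n hn => (e n hn).ge)

theorem Law.sum {L : (ℝ → ℝ) → ℝ} (h : Law L) {ι : Type*} (s : Finset ι) (f : ι → ℝ → ℝ) :
    L (fun z => ∑ i ∈ s, f i z) = ∑ i ∈ s, L (f i) := by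
  classical
  induction s using Finset.induction_on with
  | empty => simpa using h.zero
  | insert i s hi ih =>
    simp_rw [sum_insert hi]
    rw [h.add (fun z => f i z) (fun z => ∑ i ∈ s, f i z), ih]

theorem Law.const {L : (ℝ → ℝ) → ℝ} (h : Law L) (a : ℝ) : L (fun _ => a) = a := by
  have := h.smul a (fun _ => 1)
  simp only [mul_one, h.one] at this
  exact this

theorem tau_mul (p γ : ℕ) (κ : ℝ) (f : ℕ → ℝ) :
    ∑ t ∈ range (γ + 1), tau p κ γ t * f (t + 1) = f 0 + ∑ e ∈ range (γ + 1), qq p κ e * (f (e + 1) - f e) :=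
  (abel f (qq p κ) (qq_zero p κ) γ).symm

theorem Law.step_id {L : (ℝ → ℝ) → ℝ} (h : Law L) (p γ : ℕ) (κ : ℝ) (hp : 2 ≤ p) (hκ1 : κ < p - 1)
    {M : ℝ} (hM : L (fun z => z) ≤ M) : Ls L p γ κ (fun z => z) ≤ M * (1 + 1 / ((p : ℝ) - 1 - κ)) := by
  have hpR : (2 : ℝ) ≤ p := by exact_mod_cast hp
  have hk : 0 < (p : ℝ) - 1 - κ := by linarith
  have h0 : 0 ≤ L (fun z => z) := h.nonneg _ fun n _ => Nat.cast_nonneg n
  have e1 : Ls L p γ κ (fun z => z) = (∑ t ∈ range (γ + 1), tau p κ γ t * ((t + 1 : ℕ) : ℝ)) * L (fun z => z) := by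
    unfold Ls
    rw [sum_mul]
    refine sum_congr rfl fun t _ => ?_
    rw [h.smul ((t : ℝ) + 1) (fun z => z)]; push_cast; ring
  have e2 := tau_mul p γ κ (fun e => (e : ℝ))
  simp only [Nat.cast_zero, zero_add] at e2
  have e3 : ∑ e ∈ range (γ + 1), qq p κ e * (((e + 1 : ℕ) : ℝ) - (e : ℝ)) ≤ 1 + 1 / ((p : ℝ) - 1 - κ) := by
    rw [sum_range_succ']
    have e4 : ∑ k ∈ range γ, qq p κ (k + 1) * (((k + 1 + 1 : ℕ) : ℝ) - ((k + 1 : ℕ) : ℝ)) =
        (1 - ((p : ℝ)⁻¹) ^ γ) / ((p : ℝ) - 1 - κ) := by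
      have e5 : ∀ γ : ℕ, ∑ k ∈ range γ, qq p κ (k + 1) * (((k + 1 + 1 : ℕ) : ℝ) - ((k + 1 : ℕ) : ℝ)) =
          (1 - ((p : ℝ)⁻¹) ^ γ) / ((p : ℝ) - 1 - κ) := by
        intro γ
        induction γ with
        | zero => simp
        | succ n ih =>
          rw [sum_range_succ, ih]
          unfold qq
          rw [if_neg (by omega)]
          push_cast
          have hpi : (p : ℝ) * (p : ℝ)⁻¹ = 1 := mul_inv_cancel₀ (by positivity)
          have hne : (p : ℝ) - 1 - κ ≠ 0 := hk.ne'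
          rw [pow_succ]
          rw [div_add' _ _ _ hne, div_left_inj' hne]
          have : ((p : ℝ) - 1) / ((p : ℝ) - 1 - κ) * (((p : ℝ)⁻¹) ^ n * (p : ℝ)⁻¹) * ((n : ℝ) + 1 + 1 - ((n : ℝ) + 1)) *
              ((p : ℝ) - 1 - κ) = ((p : ℝ) - 1) * (((p : ℝ)⁻¹) ^ n * (p : ℝ)⁻¹) := by
            field_simp
            ring
          rw [this]
          linear_combination ((p : ℝ)⁻¹) ^ n * hpi
      exact e5 γ
    rw [e4, qq_zero]
    have e6 : (1 - ((p : ℝ)⁻¹) ^ γ) / ((p : ℝ) - 1 - κ) ≤ 1 / ((p : ℝ) - 1 - κ) := by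
      apply div_le_div_of_nonneg_right _ hk.le
      have : 0 ≤ ((p : ℝ)⁻¹) ^ γ := by positivity
      linarith
    push_cast
    linarith
  rw [e1, e2]
  have hpos : 0 ≤ 1 + 1 / ((p : ℝ) - 1 - κ) := by positivity
  calc _ ≤ (1 + 1 / ((p : ℝ) - 1 - κ)) * L (fun z => z) := mul_le_mul_of_nonneg_right e3 h0
    _ ≤ (1 + 1 / ((p : ℝ) - 1 - κ)) * M := mul_le_mul_of_nonneg_left hM hpos
    _ = _ := mul_comm _ _

theorem Law.step_sq {L : (ℝ → ℝ) → ℝ} (h : Law L) (p γ : ℕ) (κ : ℝ) (hp : 2 ≤ p) (hκ1 : κ < p - 1)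
    {M : ℝ} (hM : L (fun z => z ^ 2) ≤ M) :
    Ls L p γ κ (fun z => z ^ 2) ≤ M * (1 + (3 * (p : ℝ) - 1) / (((p : ℝ) - 1) * ((p : ℝ) - 1 - κ))) := by
  have hpR : (2 : ℝ) ≤ p := by exact_mod_cast hp
  have hk : 0 < (p : ℝ) - 1 - κ := by linarith
  have hp1 : 0 < (p : ℝ) - 1 := by linarith
  have h0 : 0 ≤ L (fun z => z ^ 2) := h.nonneg _ fun n _ => by positivity
  have e1 : Ls L p γ κ (fun z => z ^ 2) =
      (∑ t ∈ range (γ + 1), tau p κ γ t * (((t + 1 : ℕ) : ℝ)) ^ 2) * L (fun z => z ^ 2) := by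
    unfold Ls
    rw [sum_mul]
    refine sum_congr rfl fun t _ => ?_
    have : (fun z : ℝ => (((t : ℝ) + 1) * z) ^ 2) = fun z => ((t : ℝ) + 1) ^ 2 * z ^ 2 := by
      funext z; ring
    rw [this, h.smul (((t : ℝ) + 1) ^ 2) (fun z => z ^ 2)]; push_cast; ring
  have e2 := tau_mul p γ κ (fun e => (e : ℝ) ^ 2)
  simp only [Nat.cast_zero] at e2
  have e3 : ∑ e ∈ range (γ + 1), qq p κ e * (((e + 1 : ℕ) : ℝ) ^ 2 - (e : ℝ) ^ 2) ≤
      1 + (3 * (p : ℝ) - 1) / (((p : ℝ) - 1) * ((p : ℝ) - 1 - κ)) := by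
    rw [sum_range_succ']
    have e5 : ∀ γ : ℕ, ∑ k ∈ range γ, qq p κ (k + 1) * (((k + 1 + 1 : ℕ) : ℝ) ^ 2 - ((k + 1 : ℕ) : ℝ) ^ 2) =
        (3 * (p : ℝ) - 1 - ((p : ℝ)⁻¹) ^ γ * ((2 * γ + 3) * p - (2 * γ + 1))) / (((p : ℝ) - 1) * ((p : ℝ) - 1 - κ)) := by
      intro γ
      induction γ with
      | zero => simp
      | succ n ih =>
        rw [sum_range_succ, ih]
        unfold qq
        rw [if_neg (by omega)]
        push_cast
        have hpi : (p : ℝ) * (p : ℝ)⁻¹ = 1 := mul_inv_cancel₀ (by positivity)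
        have hne : ((p : ℝ) - 1) * ((p : ℝ) - 1 - κ) ≠ 0 := (mul_pos hp1 hk).ne'
        rw [pow_succ]
        rw [div_add' _ _ _ hne, div_left_inj' hne]
        have : ((p : ℝ) - 1) / ((p : ℝ) - 1 - κ) * (((p : ℝ)⁻¹) ^ n * (p : ℝ)⁻¹) *
            (((n : ℝ) + 1 + 1) ^ 2 - ((n : ℝ) + 1) ^ 2) * (((p : ℝ) - 1) * ((p : ℝ) - 1 - κ)) =
            ((p : ℝ) - 1) ^ 2 * (((p : ℝ)⁻¹) ^ n * (p : ℝ)⁻¹) * (2 * n + 3) := by
          field_simp
          ring
        rw [this]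
        linear_combination ((p : ℝ)⁻¹) ^ n * ((2 * (n : ℝ) + 3) * p - (2 * n + 1)) * hpi
    rw [e5 γ, qq_zero]
    have e6 : (3 * (p : ℝ) - 1 - ((p : ℝ)⁻¹) ^ γ * ((2 * γ + 3) * p - (2 * γ + 1))) / (((p : ℝ) - 1) * ((p : ℝ) - 1 - κ)) ≤
        (3 * (p : ℝ) - 1) / (((p : ℝ) - 1) * ((p : ℝ) - 1 - κ)) := by
      apply div_le_div_of_nonneg_right _ (by positivity)
      have : 0 ≤ ((p : ℝ)⁻¹) ^ γ * ((2 * γ + 3) * p - (2 * γ + 1)) := by
        apply mul_nonneg (by positivity)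
        have : (0 : ℝ) ≤ γ := Nat.cast_nonneg γ
        nlinarith
      linarith
    push_cast
    linarith
  rw [e1, e2]
  have hpos : 0 ≤ 1 + (3 * (p : ℝ) - 1) / (((p : ℝ) - 1) * ((p : ℝ) - 1 - κ)) := by
    have : 0 ≤ 3 * (p : ℝ) - 1 := by linarith
    positivity
  calc _ ≤ (1 + (3 * (p : ℝ) - 1) / (((p : ℝ) - 1) * ((p : ℝ) - 1 - κ))) * L (fun z => z ^ 2) :=
        mul_le_mul_of_nonneg_right (by simpa using e3) h0
    _ ≤ (1 + (3 * (p : ℝ) - 1) / (((p : ℝ) - 1) * ((p : ℝ) - 1 - κ))) * M := mul_le_mul_of_nonneg_left hM hpos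
    _ = _ := mul_comm _ _

theorem Law.at_le_one {L : (ℝ → ℝ) → ℝ} (h : Law L) (j : ℕ) : L (at' j) ≤ 1 := by
  rw [← h.one]
  refine h.mono _ _ fun n _ => ?_
  unfold at'; split_ifs <;> norm_num

theorem Law.at_nonneg {L : (ℝ → ℝ) → ℝ} (h : Law L) (j : ℕ) : 0 ≤ L (at' j) :=
  h.nonneg _ fun n _ => by unfold at'; split_ifs <;> norm_num

theorem Law.at_scale {L : (ℝ → ℝ) → ℝ} (h : Law L) (j t : ℕ) :
    L (fun z => at' j (((t : ℝ) + 1) * z)) = if (t + 1) ∣ j then L (at' (j / (t + 1))) else 0 := by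
  split_ifs with hd
  · refine h.congr fun n _ => ?_
    obtain ⟨k, rfl⟩ := hd
    rw [Nat.mul_div_cancel_left k (Nat.succ_pos t)]
    unfold at'
    have : ((((t : ℝ) + 1) * n = ((t + 1) * k : ℕ)) ↔ ((n : ℝ) = (k : ℝ))) := by
      push_cast
      constructor
      · intro h1; exact mul_left_cancel₀ (by positivity : (t : ℝ) + 1 ≠ 0) h1
      · intro h1; rw [h1]
    simp only [this]
  · rw [← h.zero]
    refine h.congr fun n _ => ?_
    unfold at'
    rw [if_neg]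
    intro h1
    apply hd
    refine ⟨n, ?_⟩
    have : (((t + 1) * n : ℕ) : ℝ) = (j : ℝ) := by push_cast; exact h1
    exact_mod_cast this.symm

theorem Law.step_at {L : (ℝ → ℝ) → ℝ} (h : Law L) (p γ : ℕ) (κ : ℝ) (hp : 2 ≤ p) (hκ1 : κ < p - 1)
    (hκ : (p : ℝ) - 1 ≤ p * ((p : ℝ) - 1 - κ)) {K : ℕ} {a : ℕ → ℝ} (ha : ∀ j : ℕ, 1 ≤ j → j < K → L (at' j) ≤ a j)
    (T : ℕ) (hT : T ≤ γ) (j : ℕ) (hj1 : 1 ≤ j) (hjK : j < K) :
    Ls L p γ κ (at' j) ≤ (∑ t ∈ range T, if (t + 1) ∣ j then (qq p κ t - qq p κ (t + 1)) * a (j / (t + 1)) else 0) +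
      qq p κ T := by
  unfold Ls
  have e0 : range (γ + 1) = range (T + (γ + 1 - T)) := by rw [Nat.add_sub_cancel' (by omega)]
  have key : ∀ n : ℕ, T + n ≤ γ + 1 →
      ∑ t ∈ range (T + n), tau p κ γ t * L (fun z => at' j (((t : ℝ) + 1) * z)) ≤
      (∑ t ∈ range T, if (t + 1) ∣ j then (qq p κ t - qq p κ (t + 1)) * a (j / (t + 1)) else 0) +
        (qq p κ T - if T + n = γ + 1 then 0 else qq p κ (T + n)) := by
    intro n
    induction n with
    | zero =>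
      intro _
      rw [add_zero, if_neg (by omega), sub_self, add_zero]
      refine sum_le_sum fun t ht => ?_
      have ht' : t < T := mem_range.1 ht
      rw [h.at_scale]
      unfold tau
      rw [if_neg (by omega)]
      split_ifs with hd
      · refine mul_le_mul_of_nonneg_left (ha _ ?_ ?_) (sub_nonneg.2 (qq_anti p κ hp hκ1 hκ t))
        · exact Nat.div_pos (Nat.le_of_dvd hj1 hd) (Nat.succ_pos t)
        · exact lt_of_le_of_lt (Nat.div_le_self _ _) hjK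
      · simp
    | succ n ih =>
      intro hn
      rw [← add_assoc, sum_range_succ]
      have h1 := ih (by omega)
      rw [if_neg (show ¬ T + n = γ + 1 by omega)] at h1
      have h2 : L (fun z => at' j ((((T + n : ℕ) : ℝ) + 1) * z)) ≤ 1 := by
        rw [h.at_scale]
        split_ifs
        · exact h.at_le_one _
        · norm_num
      have h3 : tau p κ γ (T + n) * L (fun z => at' j ((((T + n : ℕ) : ℝ) + 1) * z)) ≤ tau p κ γ (T + n) := by
        have := mul_le_mul_of_nonneg_left h2 (tau_nonneg p κ hp hκ1 hκ γ (T + n))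
        rwa [mul_one] at this
      have h4 : tau p κ γ (T + n) = qq p κ (T + n) - if T + n + 1 = γ + 1 then 0 else qq p κ (T + n + 1) := by
        unfold tau
        simp only [Nat.add_right_cancel_iff]
      have h5 := h3.trans_eq h4
      linarith
  rw [e0]
  have := key (γ + 1 - T) (by omega)
  rw [if_pos (by omega), sub_zero] at this
  exact this

theorem Law.hinge {L : (ℝ → ℝ) → ℝ} (h : Law L) {M : ℝ} (hM : L (fun z => z) ≤ M) {K : ℕ} {a : ℕ → ℝ}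
    (ha : ∀ j : ℕ, 1 ≤ j → j < K → L (at' j) ≤ a j) (k : ℕ) (hk : k ≤ K) :
    L (fun z => max 0 (z - (k : ℝ))) ≤ M - k + ∑ j ∈ Ico 1 k, ((k : ℝ) - j) * a j := by
  have e1 : L (fun z => max 0 (z - (k : ℝ))) = L (fun z => z + (-(k : ℝ) + ∑ j ∈ Ico 1 k, ((k : ℝ) - j) * at' j z)) := by
    refine h.congr fun n hn => ?_
    rcases lt_or_ge n k with h1 | h1
    · have h2 : ∑ j ∈ Ico 1 k, ((k : ℝ) - j) * at' j (n : ℝ) = (k : ℝ) - n := by
        rw [sum_eq_single n]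
        · unfold at'; simp
        · intro j _ hj
          unfold at'
          rw [if_neg (by exact_mod_cast (Ne.symm hj)), mul_zero]
        · intro h3; exact absurd (mem_Ico.2 ⟨hn, h1⟩) h3
      have h3 : (n : ℝ) < k := by exact_mod_cast h1
      rw [h2, max_eq_left (by linarith)]; ring
    · have h2 : ∑ j ∈ Ico 1 k, ((k : ℝ) - j) * at' j (n : ℝ) = 0 := by
        refine sum_eq_zero fun j hj => ?_
        have := (mem_Ico.1 hj).2
        unfold at'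
        rw [if_neg (by intro h3; have : n = j := by exact_mod_cast h3
                       omega), mul_zero]
      have h3 : (k : ℝ) ≤ n := by exact_mod_cast h1
      rw [h2, max_eq_right (by linarith)]; ring
  rw [e1, h.add (fun z => z) (fun z => -(k : ℝ) + ∑ j ∈ Ico 1 k, ((k : ℝ) - j) * at' j z),
    h.add (fun _ => -(k : ℝ)) (fun z => ∑ j ∈ Ico 1 k, ((k : ℝ) - j) * at' j z), h.const,
    h.sum (Ico 1 k) (fun j z => ((k : ℝ) - j) * at' j z)]
  have e2 : ∑ j ∈ Ico 1 k, L (fun z => ((k : ℝ) - j) * at' j z) ≤ ∑ j ∈ Ico 1 k, ((k : ℝ) - j) * a j := by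
    refine sum_le_sum fun j hj => ?_
    have hj' := mem_Ico.1 hj
    have : (j : ℝ) ≤ k := by exact_mod_cast hj'.2.le
    rw [h.smul ((k : ℝ) - j) (at' j)]
    exact mul_le_mul_of_nonneg_left (ha j hj'.1 (by omega)) (by linarith)
  linarith

theorem Law.hinge_sq {L : (ℝ → ℝ) → ℝ} (h : Law L) {M : ℝ} (hM : L (fun z => z ^ 2) ≤ M) (κ : ℝ) (hκ : 0 < κ) :
    L (fun z => max 0 (z - κ)) ≤ M / (4 * κ) := by
  have e1 : L (fun z => max 0 (z - κ)) ≤ L (fun z => (4 * κ)⁻¹ * z ^ 2) := by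
    refine h.mono _ _ fun n _ => ?_
    refine max_le (by positivity) ?_
    rw [inv_mul_eq_div, le_div_iff₀ (by positivity)]
    nlinarith [sq_nonneg ((n : ℝ) - 2 * κ)]
  rw [h.smul (4 * κ)⁻¹ (fun z => z ^ 2)] at e1
  refine e1.trans ?_
  rw [inv_mul_eq_div]
  exact div_le_div_of_nonneg_right hM (by positivity)

end Pool.Agent.Helper66.OC
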