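import Pool.Agent.Helper66.OC.Base
import Pool.Agent.Helper95.OC.Tail
import Pool.Agent.Helper52.OC.Num1
import Pool.Agent.Helper52.OC.Num2

set_option autoImplicit false

namespace Pool.Agent.Helper66.OC

open Finset

/-- a finite set of odd moduli, none divisible by 9 or 15, does not cover -/
theorem no_cover (S : Finset ℕ) (r : ℕ → ℤ) (h1 : ∀ m ∈ S, 2 ≤ m) (h2 : ∀ m ∈ S, ¬ 2 ∣ m) (h9 : ∀ m ∈ S, ¬ 9 ∣ m)
    (h15 : ∀ m ∈ S, ¬ 15 ∣ m) (hcov : ∀ x : ℤ, ∃ m ∈ S, x ≡ r m [ZMOD (m : ℤ)]) : False := by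
  set B : ℕ := S.sup id with hB
  have hle : ∀ m ∈ S, m ≤ B := fun m hm => Finset.le_sup (f := id) hm
  set γ : ℕ := max 50 B with hγ
  have hb := base S r h1 γ (le_max_left _ _)
  obtain ⟨M1, a, h200⟩ := num1 _ (clo1 S r γ (le_max_left _ _)) hb
  have hI200 : (1 : ℝ) ≤ 15176 / 100 ∧ ∃ M1 a, St S r γ 200 M1 (15176 / 100) (515 / 1000) 0 a := by
    refine ⟨by norm_num, M1, a, ?_⟩
    obtain ⟨Q, D, L, hF, hQ, hD, e1, e2, _⟩ := h200
    exact ⟨Q, D, L, hF, hQ, hD, e1, e2, fun j _ hj => absurd hj (Nat.not_lt_zero j)⟩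
  have hI := num2 _ (clo S r γ) hI200
  obtain ⟨M', _, M1', a', hN⟩ := tail _ (clo S r γ) _ _ hI (max 65536 (B + 1)) (le_max_left _ _)
  refine hN.false (by norm_num) (fun m hm => by have := h1 m hm; omega) ?_ h2 h9 h15 ?_ hcov
  · intro m hm
    calc m < 2 ^ m := Nat.lt_two_pow_self
      _ ≤ 2 ^ γ := Nat.pow_le_pow_right (by norm_num) ((hle m hm).trans (le_max_right _ _))
  · intro m hm
    exact lt_of_lt_of_le (Nat.lt_succ_of_le (hle m hm)) (le_max_right _ _)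

end Pool.Agent.Helper66.OC
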