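import Pool.Agent.Helper66.OC.Conv

set_option autoImplicit false

namespace Pool.Agent.Helper66.OC

open Finset

theorem crt (Q P : ℕ) (h : Nat.Coprime Q P) (a b : ℤ) :
    ∃ z : ℤ, z ≡ a [ZMOD (Q : ℤ)] ∧ z ≡ b [ZMOD (P : ℤ)] := by
  obtain ⟨u, v, huv⟩ := (Nat.isCoprime_iff_coprime.2 h : IsCoprime (Q : ℤ) (P : ℤ))
  refine ⟨a * (v * P) + b * (u * Q), ?_, ?_⟩
  · rw [Int.modEq_iff_dvd]
    exact ⟨(a - b) * u, by linear_combination -a * huv⟩
  · rw [Int.modEq_iff_dvd]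
    exact ⟨(b - a) * v, by linear_combination -b * huv⟩

theorem count_mod (P d : ℕ) (hd : 0 < d) (h : d ∣ P) (c : ℤ) :
    ((univ : Finset (Fin P)).filter (fun y : Fin P => ((y : ℕ) : ℤ) ≡ c [ZMOD (d : ℤ)])).card = P / d := by
  have hd' : (0 : ℤ) < d := by exact_mod_cast hd
  obtain ⟨v, hv⟩ : ∃ v : ℕ, (v : ℤ) = c % d := ⟨(c % d).toNat, Int.toNat_of_nonneg (Int.emod_nonneg _ hd'.ne')⟩
  have hiff : ∀ y : ℕ, ((y : ℤ) ≡ c [ZMOD (d : ℤ)]) ↔ y ≡ v [MOD d] := by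
    intro y
    rw [← Int.natCast_modEq_iff]
    have : (v : ℤ) ≡ c [ZMOD (d : ℤ)] := by rw [hv]; exact Int.mod_modEq _ _
    exact ⟨fun h => h.trans this.symm, fun h => h.trans this⟩
  have e1 : ((univ : Finset (Fin P)).filter (fun y : Fin P => ((y : ℕ) : ℤ) ≡ c [ZMOD (d : ℤ)])).card =
      ((range P).filter (fun y => y ≡ v [MOD d])).card := by
    rw [card_filter, card_filter]
    rw [← Fin.sum_univ_eq_sum_range (fun y => if y ≡ v [MOD d] then 1 else 0) P]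
    refine sum_congr rfl fun y _ => ?_
    simp only [hiff]
  rw [e1, ← Nat.count_eq_card_filter_range, Nat.count_modEq_card _ hd]
  have : P % d = 0 := Nat.mod_eq_zero_of_dvd h
  rw [this, if_neg (by omega), add_zero]

theorem good_hinge (κ : ℝ) (_h : 0 ≤ κ) : Good (fun z => max 0 (z - κ)) := by
  refine ⟨?_, ?_, le_max_left _ _⟩
  · have h1 : ConvexOn ℝ (Set.Ici (0 : ℝ)) (fun _ : ℝ => (0 : ℝ)) := convexOn_const 0 (convex_Ici 0)
    have h2 : ConvexOn ℝ (Set.Ici (0 : ℝ)) (fun z : ℝ => z - κ) :=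
      ((convexOn_id (convex_Ici 0)).sub (concaveOn_const κ (convex_Ici 0)))
    exact h1.sup h2
  · intro x _ y _ hxy
    exact max_le_max le_rfl (by linarith)

theorem qq_zero (p : ℕ) (κ : ℝ) : qq p κ 0 = 1 := by simp [qq]

theorem qq_pos (p : ℕ) (κ : ℝ) (hp : 1 ≤ p) (hκ : κ < p - 1) (e : ℕ) : 0 ≤ qq p κ e := by
  unfold qq
  split_ifs
  · norm_num
  · have : (1 : ℝ) ≤ p := by exact_mod_cast hp
    have h2 : 0 < (p : ℝ) - 1 - κ := by linarith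
    have : 0 ≤ (p : ℝ) - 1 := by linarith
    positivity

theorem qq_anti (p : ℕ) (κ : ℝ) (hp : 2 ≤ p) (hκ1 : κ < p - 1) (hκ : (p : ℝ) - 1 ≤ p * ((p : ℝ) - 1 - κ)) (e : ℕ) :
    qq p κ (e + 1) ≤ qq p κ e := by
  have hp' : (2 : ℝ) ≤ p := by exact_mod_cast hp
  have h2 : 0 < (p : ℝ) - 1 - κ := by linarith
  unfold qq
  rw [if_neg (Nat.succ_ne_zero e)]
  split_ifs with h
  · subst h
    rw [zero_add, pow_one, ← div_eq_mul_inv, div_div, div_le_one (by positivity)]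
    linarith
  · have h3 : 0 ≤ ((p : ℝ) - 1) / ((p : ℝ) - 1 - κ) := div_nonneg (by linarith) h2.le
    refine mul_le_mul_of_nonneg_left ?_ h3
    apply pow_le_pow_of_le_one (by positivity) _ (Nat.le_succ e)
    exact inv_le_one_of_one_le₀ (by linarith)

theorem tau_nonneg (p : ℕ) (κ : ℝ) (hp : 2 ≤ p) (hκ1 : κ < p - 1) (hκ : (p : ℝ) - 1 ≤ p * ((p : ℝ) - 1 - κ))
    (γ t : ℕ) : 0 ≤ tau p κ γ t := by
  unfold tau
  split_ifs
  · rw [sub_zero]; exact qq_pos p κ (by omega) hκ1 t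
  · rw [sub_nonneg]; exact qq_anti p κ hp hκ1 hκ t

theorem tau_sum (p : ℕ) (κ : ℝ) (γ : ℕ) : ∑ t ∈ range (γ + 1), tau p κ γ t = 1 := by
  have := abel (fun _ => 1) (qq p κ) (qq_zero p κ) γ
  simp only [sub_self, mul_zero, sum_const_zero, add_zero, mul_one] at this
  rw [this]; rfl

theorem Law.zero {L : (ℝ → ℝ) → ℝ} (h : Law L) : L (fun _ => 0) = 0 := by
  have := h.smul 0 (fun _ => 0)
  simpa using this

theorem Law.nonneg {L : (ℝ → ℝ) → ℝ} (h : Law L) (φ : ℝ → ℝ) (hφ : ∀ n : ℕ, 1 ≤ n → 0 ≤ φ n) : 0 ≤ L φ := by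
  rw [← h.zero]; exact h.mono _ _ hφ

theorem Law.step {L : (ℝ → ℝ) → ℝ} (h : Law L) (p γ : ℕ) (κ : ℝ) (hp : 2 ≤ p) (hκ1 : κ < p - 1)
    (hκ : (p : ℝ) - 1 ≤ p * ((p : ℝ) - 1 - κ)) : Law (Ls L p γ κ) where
  add φ ψ := by
    unfold Ls
    rw [← sum_add_distrib]
    refine sum_congr rfl fun t _ => ?_
    rw [h.add (fun z => φ (((t : ℝ) + 1) * z)) (fun z => ψ (((t : ℝ) + 1) * z))]; ring
  smul a φ := by
    unfold Ls
    rw [mul_sum]
    refine sum_congr rfl fun t _ => ?_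
    rw [h.smul a (fun z => φ (((t : ℝ) + 1) * z))]; ring
  mono φ ψ hφ := by
    unfold Ls
    refine sum_le_sum fun t _ => mul_le_mul_of_nonneg_left ?_ (tau_nonneg p κ hp hκ1 hκ γ t)
    refine h.mono _ _ fun n hn => ?_
    have := hφ ((t + 1) * n) (Nat.one_le_iff_ne_zero.2 (by positivity))
    push_cast at this
    exact this
  one := by
    unfold Ls
    simp only [h.one, mul_one]
    exact tau_sum p κ γ

end Pool.Agent.Helper66.OC
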