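import Pool.Agent.Helper66.OC.Step
import Pool.Agent.Helper66.OC.LawE
import Pool.Agent.Helper66.OC.Clo
import Pool.Agent.Helper66.OC.Clo1

set_option autoImplicit false

namespace Pool.Agent.Helper66.OC

open Finset

theorem Frame.weaken {S : Finset ℕ} {r : ℕ → ℤ} {Q : ℕ} {D : Finset ℕ} {L : (ℝ → ℝ) → ℝ} {W W' : ℝ}
    (h : Frame S r Q D L W) (hW : W' ≤ W) : Frame S r Q D L W' := by
  refine ⟨h.law, h.pos, h.dvd, ?_⟩
  obtain ⟨X, i, w, ρ, h1, h2, h3, h4⟩ := h.ex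
  exact ⟨X, i, w, ρ, h1, h2, h3, hW.trans h4⟩

theorem St.mono {S : Finset ℕ} {r : ℕ → ℤ} {γ n : ℕ} {M1 M2 C M1' M2' C' : ℝ} {K : ℕ} {a a' : ℕ → ℝ}
    (h : St S r γ n M1 M2 C K a) (h1 : M1 ≤ M1') (h2 : M2 ≤ M2') (hC : C ≤ C')
    (ha : ∀ j : ℕ, 1 ≤ j → j < K → a j ≤ a' j) : St S r γ n M1' M2' C' K a' := by
  obtain ⟨Q, D, L, hF, hQ, hD, e1, e2, e3⟩ := h
  exact ⟨Q, D, L, hF.weaken (by linarith), hQ, hD, e1.trans h1, e2.trans h2,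
    fun j hj hK => (e3 j hj hK).trans (ha j hj hK)⟩

theorem St.skip {S : Finset ℕ} {r : ℕ → ℤ} {γ n : ℕ} {M1 M2 C : ℝ} {K : ℕ} {a : ℕ → ℝ}
    (h : St S r γ n M1 M2 C K a) (hn : ¬ n.Prime) : St S r γ (n + 1) M1 M2 C K a := by
  obtain ⟨Q, D, L, hF, hQ, hD, e1, e2, e3⟩ := h
  refine ⟨Q, D, L, hF, fun p hp hpQ => (hQ p hp hpQ).trans (Nat.lt_succ_self n), ?_, e1, e2, e3⟩
  intro m hm0 hm h2 h9 h15 hp
  refine hD m hm0 hm h2 h9 h15 fun p hpp hpm => ?_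
  have h1 := hp p hpp hpm
  rcases Nat.lt_succ_iff_lt_or_eq.1 h1 with h3 | h3
  · exact h3
  · exact absurd (h3 ▸ hpp) hn

theorem St.step_gen {S : Finset ℕ} {r : ℕ → ℤ} {γ n : ℕ} {M1 M2 C : ℝ} {K : ℕ} {a : ℕ → ℝ}
    (h : St S r γ n M1 M2 C K a) (hn : n.Prime) (κ : ℝ) (hκ0 : 0 ≤ κ) (hκ1 : κ < n - 1)
    (hκ : (n : ℝ) - 1 ≤ n * ((n : ℝ) - 1 - κ)) (T : ℕ) (hT : T ≤ γ) (cst : ℝ)
    (hc : ∀ L : (ℝ → ℝ) → ℝ, Law L → L (fun z => z) ≤ M1 → L (fun z => z ^ 2) ≤ M2 →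
      (∀ j : ℕ, 1 ≤ j → j < K → L (at' j) ≤ a j) → L (fun z => max 0 (z - κ)) ≤ cst) :
    St S r γ (n + 1) (M1 * (1 + 1 / ((n : ℝ) - 1 - κ)))
      (M2 * (1 + (3 * (n : ℝ) - 1) / (((n : ℝ) - 1) * ((n : ℝ) - 1 - κ))))
      (C + cst / ((n : ℝ) - 1 - κ)) K
      (fun j => (∑ t ∈ range T, if (t + 1) ∣ j then (qq n κ t - qq n κ (t + 1)) * a (j / (t + 1)) else 0) +
        qq n κ T) := by
  obtain ⟨Q, D, L, hF, hQ, hD, e1, e2, e3⟩ := h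
  have hn2 : 2 ≤ n := hn.two_le
  have hk : 0 < (n : ℝ) - 1 - κ := by linarith
  have hcop : Nat.Coprime Q n := by
    rw [Nat.coprime_comm, Nat.Prime.coprime_iff_not_dvd hn]
    intro hd
    exact lt_irrefl n (hQ n hn hd)
  have hst := frame_step hF n γ κ hn2 hcop hκ0 hκ1 hκ
  have hcost := hc L hF.law e1 e2 e3
  refine ⟨Q * n ^ γ, Dn D n γ, Ls L n γ κ, hst.weaken ?_, ?_, ?_, hF.law.step_id n γ κ hn2 hκ1 e1,
    hF.law.step_sq n γ κ hn2 hκ1 e2, fun j hj hK => hF.law.step_at n γ κ hn2 hκ1 hκ e3 T hT j hj hK⟩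
  · have := div_le_div_of_nonneg_right hcost hk.le
    linarith
  · intro p hp hpd
    rcases (Nat.Prime.dvd_mul hp).1 hpd with h1 | h1
    · exact (hQ p hp h1).trans (Nat.lt_succ_self n)
    · have := (Nat.prime_dvd_prime_iff_eq hp hn).1 (hp.dvd_of_dvd_pow h1)
      omega
  · intro m hm0 hm h2 h9 h15 hp
    obtain ⟨e, m', hm', rfl⟩ := Nat.exists_eq_pow_mul_and_not_dvd hm0.ne' n hn.one_lt.ne'
    have hm'0 : 0 < m' := Nat.pos_of_ne_zero fun h0 => by simp [h0] at hm0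
    have hne : 0 < n ^ e := pow_pos hn.pos e
    have hle : m' ≤ n ^ e * m' := Nat.le_mul_of_pos_left m' hne
    have hmem : m' ∈ D := by
      refine hD m' hm'0 (lt_of_le_of_lt hle hm) (fun hd => h2 (hd.mul_left _)) (fun hd => h9 (hd.mul_left _))
        (fun hd => h15 (hd.mul_left _)) fun p hpp hpm => ?_
      have h1 := hp p hpp (hpm.mul_left _)
      rcases Nat.lt_succ_iff_lt_or_eq.1 h1 with h3 | h3
      · exact h3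
      · subst h3; exact absurd hpm hm'
    have he : e < γ := by
      have h1 : 2 ^ e < 2 ^ γ := by
        calc 2 ^ e ≤ n ^ e := Nat.pow_le_pow_left hn2 e
          _ ≤ n ^ e * m' := Nat.le_mul_of_pos_right _ hm'0
          _ < 2 ^ γ := hm
      exact (Nat.pow_lt_pow_iff_right (by norm_num)).1 h1
    unfold Dn
    rw [mem_image]
    exact ⟨(m', e), mem_product.2 ⟨hmem, mem_range.2 (by simp only; omega)⟩, by simp only; ring⟩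

theorem clo1 (S : Finset ℕ) (r : ℕ → ℤ) (γ : ℕ) (hγ : 50 ≤ γ) : Clo1 (fun n M1 M2 C a => St S r γ n M1 M2 C 49 a) where
  skip n M1 M2 C a _ hn h := h.skip hn
  mono n M1 M2 C a M1' M2' C' a' h1 h2 h3 h4 h := h.mono h1 h2 h3 h4
  step n k M1 M2 C a h7 hn hk1 hk2 hk3 h := by
    have hk3' : (2 : ℝ) * k + 2 ≤ n := by exact_mod_cast hk3
    have hk0 : (0 : ℝ) ≤ k := Nat.cast_nonneg k
    have hn7 : (7 : ℝ) ≤ n := by exact_mod_cast h7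
    refine h.step_gen hn (k : ℝ) hk0 (by linarith) ?_ 8 (by omega) _ ?_
    · nlinarith
    · intro L hL e1 e2 e3
      exact hL.hinge e1 e3 k (by omega)

theorem clo (S : Finset ℕ) (r : ℕ → ℤ) (γ : ℕ) :
    Clo (fun n M C => 1 ≤ M ∧ ∃ M1 a, St S r γ n M1 M C 0 a) where
  skip n M C _ hn h := ⟨h.1, by obtain ⟨M1, a, h1⟩ := h.2; exact ⟨M1, a, h1.skip hn⟩⟩
  mono n M C M' C' h1 h2 h := by
    obtain ⟨h0, M1, a, h3⟩ := h
    exact ⟨h0.trans h1, M1, a, h3.mono le_rfl h1 h2 (fun j _ hj => absurd hj (Nat.not_lt_zero j))⟩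
  pos n M C h := h.1
  step n M C h7 hn h := by
    obtain ⟨h0, M1, a, h3⟩ := h
    have hn7 : (7 : ℝ) ≤ n := by exact_mod_cast h7
    set κ : ℝ := ((n : ℝ) - 1) / 4 with hκ
    have h4 := h3.step_gen hn κ (by rw [hκ]; linarith) (by rw [hκ]; linarith) (by rw [hκ]; nlinarith) 0 (Nat.zero_le _)
      (M / (4 * κ)) (fun L hL e1 e2 _ => hL.hinge_sq e2 κ (by rw [hκ]; linarith))
    have hn1 : (n : ℝ) - 1 ≠ 0 := by linarith
    have e1 : (3 * (n : ℝ) - 1) / (((n : ℝ) - 1) * ((n : ℝ) - 1 - κ)) =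
        4 * (3 * (n : ℝ) - 1) / (3 * ((n : ℝ) - 1) ^ 2) := by
      rw [hκ]
      have : (n : ℝ) - 1 - ((n : ℝ) - 1) / 4 = 3 * ((n : ℝ) - 1) / 4 := by ring
      rw [this]
      field_simp
    have e2 : M / (4 * κ) / ((n : ℝ) - 1 - κ) = 4 * M / (3 * ((n : ℝ) - 1) ^ 2) := by
      rw [hκ]
      have : (n : ℝ) - 1 - ((n : ℝ) - 1) / 4 = 3 * ((n : ℝ) - 1) / 4 := by ring
      rw [this]
      field_simp
    rw [e1, e2] at h4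
    refine ⟨?_, _, _, h4⟩
    have h5 : 0 ≤ 4 * (3 * (n : ℝ) - 1) / (3 * ((n : ℝ) - 1) ^ 2) := by
      have : 0 ≤ 3 * (n : ℝ) - 1 := by linarith
      positivity
    nlinarith

theorem St.false {S : Finset ℕ} {r : ℕ → ℤ} {γ n : ℕ} {M1 M2 C : ℝ} {K : ℕ} {a : ℕ → ℝ}
    (h : St S r γ n M1 M2 C K a) (hC : C < 1) (hS0 : ∀ m ∈ S, 0 < m) (hSγ : ∀ m ∈ S, m < 2 ^ γ) (hS2 : ∀ m ∈ S, ¬ 2 ∣ m)
    (hS9 : ∀ m ∈ S, ¬ 9 ∣ m) (hS15 : ∀ m ∈ S, ¬ 15 ∣ m) (hSn : ∀ m ∈ S, m < n)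
    (hcov : ∀ x : ℤ, ∃ m ∈ S, x ≡ r m [ZMOD (m : ℤ)]) : False := by
  obtain ⟨Q, D, L, hF, hQ, hD, e1, e2, e3⟩ := h
  obtain ⟨X, _, w, ρ, hw, hnc, _, hmass⟩ := hF.ex
  have hpos : 0 < ∑ x, w x := by linarith
  obtain ⟨x, _, hx⟩ := exists_ne_zero_of_sum_ne_zero hpos.ne'
  obtain ⟨m, hm, hxm⟩ := hcov (ρ x)
  refine hnc x hx m hm ?_ hxm
  refine hD m (hS0 m hm) (hSγ m hm) (hS2 m hm) (hS9 m hm) (hS15 m hm) fun p _ hpm => ?_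
  exact lt_of_le_of_lt (Nat.le_of_dvd (hS0 m hm) hpm) (hSn m hm)

end Pool.Agent.Helper66.OC
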