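import Pool.Agent.Helper66.OC.Ext

set_option autoImplicit false

namespace Pool.Agent.Helper66.OC

open Finset

/-- the domination extended to partial sums -/
theorem dom_sum {X : Type} [Fintype X] {w : X → ℝ} {ρ : X → ℤ} {D : Finset ℕ} {L : (ℝ → ℝ) → ℝ}
    (hw : ∀ x, 0 ≤ w x)
    (hdom : ∀ (c : ℕ → ℤ) (φ : ℝ → ℝ), Good φ → ∑ x, w x * φ (cnt D c (ρ x) : ℝ) ≤ L φ)
    {φ : ℝ → ℝ} (hφ : Good φ) (c : ℕ → ℕ → ℤ) (t : ℕ) :
    ∑ x, w x * φ (∑ i ∈ range (t + 1), (cnt D (c i) (ρ x) : ℝ)) ≤ L (fun z => φ (((t : ℝ) + 1) * z)) := by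
  calc ∑ x, w x * φ (∑ i ∈ range (t + 1), (cnt D (c i) (ρ x) : ℝ))
      ≤ ∑ x, w x * ∑ i ∈ range (t + 1), ((t : ℝ) + 1)⁻¹ * φ (((t : ℝ) + 1) * (cnt D (c i) (ρ x) : ℝ)) :=
        sum_le_sum fun x _ => mul_le_mul_of_nonneg_left
          (hφ.jensen (fun i => (cnt D (c i) (ρ x) : ℝ)) (fun i => by positivity) t) (hw x)
    _ = ∑ i ∈ range (t + 1), ((t : ℝ) + 1)⁻¹ * ∑ x, w x * φ (((t : ℝ) + 1) * (cnt D (c i) (ρ x) : ℝ)) := by
        simp_rw [mul_sum]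
        rw [sum_comm]
        refine sum_congr rfl fun i _ => sum_congr rfl fun x _ => ?_
        ring
    _ ≤ ∑ i ∈ range (t + 1), ((t : ℝ) + 1)⁻¹ * L (fun z => φ (((t : ℝ) + 1) * z)) :=
        sum_le_sum fun i _ => mul_le_mul_of_nonneg_left (hdom (c i) _ (hφ.scale t)) (by positivity)
    _ = L (fun z => φ (((t : ℝ) + 1) * z)) := by
        rw [sum_const, card_range, nsmul_eq_mul]; push_cast; field_simp

/-- one prime -/
theorem frame_step {S : Finset ℕ} {r : ℕ → ℤ} {Q : ℕ} {D : Finset ℕ} {L : (ℝ → ℝ) → ℝ} {W : ℝ}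
    (h : Frame S r Q D L W) (p γ : ℕ) (κ : ℝ) (hp : 2 ≤ p) (hc : Nat.Coprime Q p) (hκ0 : 0 ≤ κ) (hκ1 : κ < p - 1)
    (hκ : (p : ℝ) - 1 ≤ p * ((p : ℝ) - 1 - κ)) :
    Frame S r (Q * p ^ γ) (Dn D p γ) (Ls L p γ κ) (W - L (fun z => max 0 (z - κ)) / ((p : ℝ) - 1 - κ)) := by
  classical
  refine ⟨h.law.step p γ κ hp hκ1 hκ, Nat.mul_pos h.pos (by positivity), ?_, ?_⟩
  · intro d hd
    unfold Dn at hd
    rw [mem_image] at hd
    obtain ⟨⟨m, e⟩, hme, rfl⟩ := hd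
    rw [mem_product] at hme
    exact Nat.mul_dvd_mul (h.dvd m hme.1) (pow_dvd_pow p (by have := mem_range.1 hme.2; omega))
  obtain ⟨X, _, w, ρ, hw, hcov, hdom, hmass⟩ := h.ex
  have hk : 0 < (p : ℝ) - 1 - κ := by linarith
  have hcop : Nat.Coprime Q (p ^ γ) := hc.pow_right γ
  have hz : ∀ x : X, ∀ y : Fin (p ^ γ), ∃ z : ℤ, z ≡ ρ x [ZMOD (Q : ℤ)] ∧ z ≡ ((y : ℕ) : ℤ) [ZMOD ((p ^ γ : ℕ) : ℤ)] :=
    fun x y => crt Q (p ^ γ) hcop _ _
  choose z hz1 hz2 using hz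
  have hf := fun x : X => fibre_weight S r h.dvd p γ κ hp hκ0 hκ1 (w x) (hw x) (ρ x) (z x) (hz1 x) (hz2 x)
  choose v hv0 hvc hvs hvm hvd using hf
  refine ⟨X × Fin (p ^ γ), inferInstance, fun x => v x.1 x.2, fun x => z x.1 x.2, fun x => hv0 _ _, ?_, ?_, ?_⟩
  · rintro ⟨x, y⟩ hxy m hmS hmD
    obtain ⟨hw0, hb⟩ := hvc x y hxy
    unfold Dn at hmD
    rw [mem_image] at hmD
    obtain ⟨⟨m', e⟩, hme, rfl⟩ := hmD
    rw [mem_product] at hme
    obtain ⟨hm', he⟩ := hme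
    simp only at hm' he hmS ⊢
    rcases Nat.eq_zero_or_pos e with h0 | h0
    · subst h0
      rw [pow_zero, mul_one] at hmS ⊢
      intro hzz
      refine hcov x hw0 m' hmS hm' ?_
      exact ((hz1 x y).symm.of_dvd (by exact_mod_cast h.dvd m' hm')).trans hzz
    · obtain ⟨e', rfl⟩ : ∃ e', e = e' + 1 := ⟨e - 1, by omega⟩
      exact hb _ hmS m' hm' e' (by have := mem_range.1 he; omega) rfl
  · intro c φ hφ
    rw [Fintype.sum_prod_type]
    calc ∑ x, ∑ y, v x y * φ (cnt (Dn D p γ) c (z x y) : ℝ)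
        ≤ ∑ x, w x * ∑ t ∈ range (γ + 1), tau p κ γ t *
            φ (∑ i ∈ range (t + 1), (cnt D (fun m => c (m * p ^ i)) (ρ x) : ℝ)) :=
          sum_le_sum fun x _ => hvd x c φ hφ
      _ = ∑ t ∈ range (γ + 1), tau p κ γ t *
            ∑ x, w x * φ (∑ i ∈ range (t + 1), (cnt D (fun m => c (m * p ^ i)) (ρ x) : ℝ)) := by
          simp_rw [mul_sum]
          rw [sum_comm]
          refine sum_congr rfl fun i _ => sum_congr rfl fun x _ => ?_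
          ring
      _ ≤ Ls L p γ κ φ := by
          unfold Ls
          exact sum_le_sum fun t _ => mul_le_mul_of_nonneg_left
            (dom_sum hw hdom hφ (fun i m => c (m * p ^ i)) t) (tau_nonneg p κ hp hκ1 hκ γ t)
  · rw [Fintype.sum_prod_type]
    set H : ℝ := L (fun z => max 0 (z - κ)) with hH
    have hH0 : 0 ≤ H := h.law.nonneg _ fun n _ => le_max_left _ _
    have hp0 : (0 : ℝ) < p := by exact_mod_cast (by omega : 0 < p)
    have hp1 : (0 : ℝ) ≤ (p : ℝ) - 1 := by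
      have : (2 : ℝ) ≤ p := by exact_mod_cast hp
      linarith
    have e1 : ∑ x, w x * ((∑ e ∈ range γ, ((p : ℝ) - 1) * ((p : ℝ)⁻¹) ^ (e + 1) *
        max 0 ((cnt D (fun m => r (m * p ^ (e + 1))) (ρ x) : ℝ) - κ)) / ((p : ℝ) - 1 - κ)) ≤ H / ((p : ℝ) - 1 - κ) := by
      have e2 : ∑ x, w x * ((∑ e ∈ range γ, ((p : ℝ) - 1) * ((p : ℝ)⁻¹) ^ (e + 1) *
          max 0 ((cnt D (fun m => r (m * p ^ (e + 1))) (ρ x) : ℝ) - κ)) / ((p : ℝ) - 1 - κ)) =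
          (∑ e ∈ range γ, ((p : ℝ) - 1) * ((p : ℝ)⁻¹) ^ (e + 1) *
            ∑ x, w x * max 0 ((cnt D (fun m => r (m * p ^ (e + 1))) (ρ x) : ℝ) - κ)) / ((p : ℝ) - 1 - κ) := by
        rw [sum_div]
        simp_rw [mul_sum, sum_div, mul_sum]
        rw [sum_comm]
        refine sum_congr rfl fun i _ => sum_congr rfl fun x _ => ?_
        ring
      rw [e2]
      apply div_le_div_of_nonneg_right _ hk.le
      calc ∑ e ∈ range γ, ((p : ℝ) - 1) * ((p : ℝ)⁻¹) ^ (e + 1) *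
            ∑ x, w x * max 0 ((cnt D (fun m => r (m * p ^ (e + 1))) (ρ x) : ℝ) - κ)
          ≤ ∑ e ∈ range γ, ((p : ℝ) - 1) * ((p : ℝ)⁻¹) ^ (e + 1) * H :=
            sum_le_sum fun e _ => mul_le_mul_of_nonneg_left
              (hdom (fun m => r (m * p ^ (e + 1))) _ (good_hinge κ hκ0)) (by positivity)
        _ = (1 - ((p : ℝ)⁻¹) ^ γ) * H := by rw [← sum_mul, geo (p : ℝ) hp0.ne']
        _ ≤ H := by
            have : 0 ≤ ((p : ℝ)⁻¹) ^ γ * H := by positivity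
            linarith
    have e3 := sum_le_sum fun (x : X) (_ : x ∈ univ) => hvm x
    rw [sum_sub_distrib] at e3
    linarith

end Pool.Agent.Helper66.OC
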